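import Pool.Agent.Helper8.UN.Stmts

/-! Coupling of surjective colourings and colourings (module H2). -/

set_option autoImplicit false

open Finset

namespace Pool.Agent.Helper8.UN

theorem h2_out {n k : ℕ} {E : Finset (Finset (Fin n))} {W : Finset (Fin n)} {f : Fin n → ℕ}
    (hf : f ∈ CC E W k) {y : Fin n} (hy : y ∉ W) : f y = 0 := by
  classical
  unfold CC at hf
  have h := Fintype.mem_piFinset.1 (Finset.mem_filter.1 hf).1 y
  rw [if_neg hy] at h
  exact Finset.mem_singleton.1 h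

theorem h2_sub {n k : ℕ} {E : Finset (Finset (Fin n))} {W : Finset (Fin n)} {f : Fin n → ℕ}
    (hf : f ∈ SS E W k) : f ∈ CC E W k := by
  unfold SS at hf
  simp only [Finset.mem_filter] at hf
  exact hf.1

theorem h2_pne0 {n : ℕ} {S T : Finset (Fin n → ℕ)} {ω : (Fin n → ℕ) → (Fin n → ℕ) → ℝ}
    (hω : Cpl S T ω) (y : Fin n) : 0 ≤ pne S T ω y := by
  unfold pne
  refine Finset.sum_nonneg fun f _ => Finset.sum_nonneg fun g _ => ?_
  split_ifs
  · exact le_rfl
  · exact hω.nn f g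

/-- sums of functions of the first colouring -/
theorem h2_left {n : ℕ} {S T : Finset (Fin n → ℕ)} {ω : (Fin n → ℕ) → (Fin n → ℕ) → ℝ}
    (hω : Cpl S T ω) (φ : (Fin n → ℕ) → ℝ) :
    ∑ f ∈ S, ∑ g ∈ T, ω f g * φ f = (∑ f ∈ S, φ f) / (S.card : ℝ) := by
  rw [Finset.sum_div]
  refine Finset.sum_congr rfl fun f hf => ?_
  rw [← Finset.sum_mul, hω.l f hf]
  ring

/-- sums of functions of the second colouring -/
theorem h2_right {n : ℕ} {S T : Finset (Fin n → ℕ)} {ω : (Fin n → ℕ) → (Fin n → ℕ) → ℝ}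
    (hω : Cpl S T ω) (φ : (Fin n → ℕ) → ℝ) :
    ∑ f ∈ S, ∑ g ∈ T, ω f g * φ g = (∑ g ∈ T, φ g) / (T.card : ℝ) := by
  rw [Finset.sum_comm, Finset.sum_div]
  refine Finset.sum_congr rfl fun g hg => ?_
  rw [← Finset.sum_mul, hω.r g hg]
  ring

/-- number of disagreements in a set -/
theorem h2_dis {n : ℕ} {S T : Finset (Fin n → ℕ)} {ω : (Fin n → ℕ) → (Fin n → ℕ) → ℝ}
    (A : Finset (Fin n)) :
    ∑ f ∈ S, ∑ g ∈ T, ω f g * ((A.filter (fun z => f z ≠ g z)).card : ℝ) =
      ∑ z ∈ A, pne S T ω z := by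
  have h1 : ∀ f g : Fin n → ℕ, ω f g * ((A.filter (fun z => f z ≠ g z)).card : ℝ) =
      ∑ z ∈ A, (if f z = g z then 0 else ω f g) := by
    intro f g
    rw [Finset.card_filter, Nat.cast_sum, Finset.mul_sum]
    refine Finset.sum_congr rfl fun z _ => ?_
    by_cases h : f z = g z
    · simp [h]
    · simp [h]
  simp_rw [h1]
  unfold pne
  symm
  rw [Finset.sum_comm]
  refine Finset.sum_congr rfl fun f _ => ?_
  rw [Finset.sum_comm]

open scoped Classical in
theorem st_H2 (hSWP : ST_SWP) (hPTW : ST_PTW) (hPOS : ST_POS) : ST_H2 := by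
  intro n D0 D k E W τ q hE hBD hDk hD0 hnb hτ hq hAA hbS hbT hsg
  have hDk' : (D : ℝ) < k := by exact_mod_cast hDk
  have hkD : (0 : ℝ) < (k : ℝ) - D := by linarith
  have hSn : (SS E W k).Nonempty := Finset.card_pos.1 hAA
  have hPP : 0 < PP E W k := (hPOS n D k E W hE hBD hDk).1
  have hTn : (CC E W k).Nonempty := Finset.card_pos.1 hPP
  have hScard : (0 : ℝ) < ((SS E W k).card : ℝ) := by exact_mod_cast hAA
  have hTcard : (0 : ℝ) < ((CC E W k).card : ℝ) := by exact_mod_cast hPP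
  have hβ : (D0 : ℝ) / ((k : ℝ) - D) ≤ 1 / 2 := by
    rw [div_le_iff₀ hkD]
    have h1 : 2 * D0 + D ≤ k := by omega
    have h2 : (2 : ℝ) * D0 + D ≤ k := by exact_mod_cast h1
    linarith
  refine hSWP n (SS E W k) (CC E W k) W (q + 2 * τ / ((k : ℝ) - D)) (D0 / ((k : ℝ) - D)) hSn hTn
    (by positivity) (by positivity) hβ ?_ ?_
  · intro y hy f hf g hg
    rw [h2_out (h2_sub hf) hy, h2_out hg hy]
  · intro ω hω M hM y hy
    have hM0 : 0 ≤ M := (h2_pne0 hω y).trans (hM y)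
    have h1 : ∑ f ∈ SS E W k, ∑ g ∈ CC E W k,
        ω f g * tv (fib (SS E W k) f y) (fib (CC E W k) g y) ≤
        ∑ f ∈ SS E W k, ∑ g ∈ CC E W k,
          (ω f g * (if ∃ z ∈ W, z ≠ y ∧ f z = f y then 0 else 1) +
          (ω f g * (((nb E W y).filter (fun z => f z ≠ g z)).card : ℝ) +
            ω f g * (bl3 E W k f y : ℝ) + ω f g * (bl3 E W k g y : ℝ)) * (1 / ((k : ℝ) - D))) := by
      refine Finset.sum_le_sum fun f hf => Finset.sum_le_sum fun g hg => ?_
      have h2 := (hPTW n D k E W y g hE hBD hDk hy hg).2 f hf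
      refine (mul_le_mul_of_nonneg_left h2 (hω.nn f g)).trans (le_of_eq ?_)
      ring
    refine h1.trans ?_
    simp_rw [Finset.sum_add_distrib]
    have e2 : ∑ f ∈ SS E W k, ∑ g ∈ CC E W k,
        (ω f g * (((nb E W y).filter (fun z => f z ≠ g z)).card : ℝ) +
            ω f g * (bl3 E W k f y : ℝ) + ω f g * (bl3 E W k g y : ℝ)) * (1 / ((k : ℝ) - D)) =
        (∑ z ∈ nb E W y, pne (SS E W k) (CC E W k) ω z +
          (∑ f ∈ SS E W k, (bl3 E W k f y : ℝ)) / ((SS E W k).card : ℝ) +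
          (∑ g ∈ CC E W k, (bl3 E W k g y : ℝ)) / ((CC E W k).card : ℝ)) *
            (1 / ((k : ℝ) - D)) := by
      rw [← h2_left hω (fun f => (bl3 E W k f y : ℝ)), ← h2_right hω (fun g => (bl3 E W k g y : ℝ)),
        ← h2_dis (S := SS E W k) (T := CC E W k) (ω := ω) (nb E W y)]
      simp only [Finset.sum_mul, add_mul, Finset.sum_add_distrib]
    rw [e2, h2_left hω (fun f => if ∃ z ∈ W, z ≠ y ∧ f z = f y then (0 : ℝ) else 1)]
    -- the four sums
    have b1 : (∑ f ∈ SS E W k, if ∃ z ∈ W, z ≠ y ∧ f z = f y then (0 : ℝ) else 1) /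
        ((SS E W k).card : ℝ) ≤ q := by
      rw [div_le_iff₀ hScard]
      have h3 : (∑ f ∈ SS E W k, if ∃ z ∈ W, z ≠ y ∧ f z = f y then (0 : ℝ) else 1) =
          (((SS E W k).filter (fun f => ∀ z ∈ W, z ≠ y → f z ≠ f y)).card : ℝ) := by
        rw [Finset.card_filter, Nat.cast_sum]
        refine Finset.sum_congr rfl fun f _ => ?_
        by_cases h : ∃ z ∈ W, z ≠ y ∧ f z = f y
        · rw [if_pos h, if_neg]
          · simp
          · intro h4
            obtain ⟨z, hz, hzy, hf⟩ := h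
            exact h4 z hz hzy hf
        · rw [if_neg h, if_pos]
          · simp
          · intro z hz hzy hf
            exact h ⟨z, hz, hzy, hf⟩
      rw [h3]
      exact hsg y hy
    have b2 : ∑ z ∈ nb E W y, pne (SS E W k) (CC E W k) ω z ≤ D0 * M := by
      calc ∑ z ∈ nb E W y, pne (SS E W k) (CC E W k) ω z ≤ ∑ _z ∈ nb E W y, M :=
            Finset.sum_le_sum fun z _ => hM z
        _ = (nb E W y).card * M := by rw [Finset.sum_const, nsmul_eq_mul]
        _ ≤ D0 * M := by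
          apply mul_le_mul_of_nonneg_right _ hM0
          exact_mod_cast hnb y hy
    have b3 : (∑ f ∈ SS E W k, (bl3 E W k f y : ℝ)) / ((SS E W k).card : ℝ) ≤ τ := by
      rw [div_le_iff₀ hScard, mul_comm]
      exact hbS y hy
    have b4 : (∑ g ∈ CC E W k, (bl3 E W k g y : ℝ)) / ((CC E W k).card : ℝ) ≤ τ := by
      rw [div_le_iff₀ hTcard, mul_comm]
      exact hbT y hy
    have hinv : 0 ≤ 1 / ((k : ℝ) - D) := by positivity
    have h5 := mul_le_mul_of_nonneg_right (add_le_add (add_le_add b2 b3) b4) hinv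
    refine (add_le_add b1 h5).trans (le_of_eq ?_)
    ring

end Pool.Agent.Helper8.UN
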